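import Pool.Agent.H7.Forc.Main

set_option autoImplicit false

open Set Filter Topology MeasureTheory
open scoped UpperHalfPlane

namespace Pool.Agent.Results.MP_b0cea1_an.ThinForcingSet

open Pool.Agent.H7.Forc

/-- There is a forcing set `K` in the upper half-plane, accumulating at `0`, such that for every
`l > 0` the set `B'` of moduli of its hyperbolic `l`-neighbourhood satisfies
`m(B' ∩ (0,r)) = o(r)` as `r → 0`. -/
theorem result : ∃ K : Set ℍ, IsForcing K ∧ (0 : ℂ) ∈ closure (((↑) : ℍ → ℂ) '' K) ∧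
    ∀ l : ℝ, 0 < l →
      (fun r : ℝ => (volume (radii l K ∩ Ioo 0 r)).toReal) =o[𝓝[>] 0] (fun r : ℝ => r) :=
  ⟨KK, KK_forcing, KK_acc, fun _ hl => KK_thin hl⟩

end Pool.Agent.Results.MP_b0cea1_an.ThinForcingSet
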